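import Mathlib

set_option autoImplicit false

namespace Pool.Agent.Results.MP_0959cd_co.Counterexample

/-- the directed walk `u, l₁, …, l_m, v` follows arcs of `A` -/
def Closes {V : Type} (A : V → V → Prop) (v : V) : V → List V → Prop
  | u, [] => A u v
  | u, x :: l => A u x ∧ Closes A v x l

/-- total weight of the arcs of the walk `u, l₁, …, l_m, v` -/
def weight {V : Type} (p : V → V → ℝ) (v : V) : V → List V → ℝ
  | u, [] => p u v
  | u, x :: l => p u x + weight p v x l

/-- `v, l₁, …, l_m` (with `m ≥ 1`, all distinct) are the vertices of a directed cycle of `A`, in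
this order -/
def IsDirectedCycle {V : Type} (A : V → V → Prop) (v : V) (l : List V) : Prop :=
  l ≠ [] ∧ (v :: l).Nodup ∧ Closes A v v l

/-- weights times 21 -/
def W : List (List ℕ) := [
  [0, 0, 0, 0, 6, 15, 0, 0, 0, 0, 0, 0, 0, 0],
  [0, 0, 0, 0, 16, 5, 0, 0, 0, 0, 0, 0, 0, 0],
  [0, 0, 0, 0, 16, 5, 0, 0, 0, 0, 0, 0, 0, 0],
  [0, 0, 0, 0, 16, 5, 0, 0, 0, 0, 0, 0, 0, 0],
  [0, 4, 4, 4, 0, 9, 0, 0, 0, 0, 0, 0, 0, 0],
  [5, 0, 0, 0, 11, 0, 5, 0, 0, 0, 0, 0, 0, 0],
  [0, 0, 0, 0, 6, 15, 0, 0, 0, 0, 0, 0, 0, 0],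
  [21, 0, 0, 0, 0, 0, 0, 0, 0, 0, 0, 0, 5, 0],
  [0, 21, 0, 0, 0, 0, 0, 0, 0, 0, 0, 4, 0, 0],
  [0, 0, 21, 0, 0, 0, 0, 0, 0, 0, 0, 4, 0, 0],
  [0, 0, 0, 21, 0, 0, 0, 0, 0, 0, 0, 4, 0, 0],
  [0, 0, 0, 0, 21, 0, 0, 6, 16, 16, 16, 0, 11, 6],
  [0, 0, 0, 0, 0, 21, 0, 15, 5, 5, 5, 9, 0, 15],
  [0, 0, 0, 0, 0, 0, 21, 0, 0, 0, 0, 0, 5, 0]]

def w (u v : Fin 14) : ℕ := (W.getD u []).getD v 0

abbrev A : Fin 14 → Fin 14 → Prop := fun u v => w u v ≠ 0

/-- exhaustive search over simple directed paths from `v` -/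
def chk (v : Fin 14) : ℕ → Fin 14 → ℕ → ℕ → Bool
  | 0, _, _, _ => false
  | k + 1, u, vis, acc => (w u v == 0 || Nat.ble (acc + w u v) 20) &&
      (List.finRange 14).all (fun x => w u x == 0 || vis.testBit x ||
        chk v k x (vis ||| (1 <<< x.val)) (acc + w u x))

lemma chk_all : ∀ v : Fin 14, chk v 14 v (1 <<< v.val) 0 = true := by
  decide +kernel

lemma out_ge : ∀ u : Fin 14, 21 ≤ ∑ v, w u v := by decide +kernel

lemma in_ge : ∀ u : Fin 14, 21 ≤ ∑ v, w v u := by decide +kernel

lemma w_le : ∀ u v : Fin 14, w u v ≤ 21 := by decide +kernel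

lemma w_loop : ∀ u : Fin 14, w u u = 0 := by decide +kernel

lemma sound (v : Fin 14) (l : List (Fin 14)) : ∀ (k : ℕ) (u : Fin 14) (vis acc : ℕ),
    l.length < k → l.Nodup → (∀ x ∈ l, vis.testBit x = false) → Closes A v u l →
    chk v k u vis acc = true → (acc : ℝ) + 21 * weight (fun a b => (w a b : ℝ) / 21) v u l ≤ 20 := by
  induction l with
  | nil =>
    intro k u vis acc hk _ _ hc hchk
    obtain ⟨k, rfl⟩ : ∃ j, k = j + 1 := ⟨k - 1, by simp at hk; omega⟩
    simp only [chk, Bool.and_eq_true, Bool.or_eq_true, beq_iff_eq, Nat.ble_eq] at hchk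
    have h1 := hchk.1.resolve_left hc
    have h2 : ((acc + w u v : ℕ) : ℝ) ≤ 20 := by exact_mod_cast h1
    push_cast at h2
    simp only [weight]
    linarith
  | cons x l ih =>
    intro k u vis acc hk hn hvis hc hchk
    obtain ⟨k, rfl⟩ : ∃ j, k = j + 1 := ⟨k - 1, by simp at hk; omega⟩
    simp only [chk, Bool.and_eq_true, List.all_eq_true] at hchk
    have h1 := hchk.2 x (List.mem_finRange x)
    simp only [Bool.or_eq_true, beq_iff_eq] at h1
    have hx : vis.testBit x = false := hvis x (by simp)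
    have h2 : chk v k x (vis ||| (1 <<< x.val)) (acc + w u x) = true := by
      rcases h1 with (h1 | h1) | h1
      · exact absurd h1 hc.1
      · rw [hx] at h1
        exact absurd h1 (by simp)
      · exact h1
    rw [List.nodup_cons] at hn
    have h3 := ih k x _ _ (by simp at hk; omega) hn.2 (by
      intro y hy
      rw [Nat.testBit_or, hvis y (by simp [hy]), Nat.one_shiftLeft, Nat.testBit_two_pow]
      simp only [Bool.false_or, decide_eq_false_iff_not]
      intro hxy
      exact hn.1 (by rw [Fin.ext hxy]; exact hy)) hc.2 h2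
    push_cast at h3
    simp only [weight]
    linarith

/-- There are a digraph `A` on 14 vertices without loops and a weighting `p` of its arcs by numbers
in `[0, 1]` such that every vertex has weighted out-degree and weighted in-degree at least `1`, and
every directed cycle has total weight less than `1`. -/
theorem result : ∃ (A : Fin 14 → Fin 14 → Prop) (_ : DecidableRel A) (p : Fin 14 → Fin 14 → ℝ),
    (∀ u, ¬ A u u) ∧ (∀ u v, A u v → 0 ≤ p u v ∧ p u v ≤ 1) ∧
    (∀ u, 1 ≤ ∑ v ∈ Finset.univ.filter (fun v => A u v), p u v) ∧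
    (∀ u, 1 ≤ ∑ v ∈ Finset.univ.filter (fun v => A v u), p v u) ∧
    ∀ (v : Fin 14) (l : List (Fin 14)), IsDirectedCycle A v l → weight p v v l < 1 := by
  refine ⟨A, inferInstance, fun a b => (w a b : ℝ) / 21, ?_, ?_, ?_, ?_, ?_⟩
  · intro u h
    exact h (w_loop u)
  · intro u v _
    refine ⟨by positivity, ?_⟩
    have : (w u v : ℝ) ≤ 21 := by exact_mod_cast w_le u v
    rw [div_le_one (by norm_num)]
    exact this
  · intro u
    have h1 : ∑ v ∈ Finset.univ.filter (fun v => A u v), (w u v : ℝ) / 21 =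
        (∑ v, (w u v : ℝ)) / 21 := by
      rw [Finset.sum_div, Finset.sum_filter]
      apply Finset.sum_congr rfl
      intro v _
      by_cases h : w u v = 0
      · simp [A, h]
      · simp [A, h]
    rw [h1, le_div_iff₀ (by norm_num)]
    have : ((21 : ℕ) : ℝ) ≤ ((∑ v, w u v : ℕ) : ℝ) := by exact_mod_cast out_ge u
    push_cast at this
    linarith
  · intro u
    have h1 : ∑ v ∈ Finset.univ.filter (fun v => A v u), (w v u : ℝ) / 21 =
        (∑ v, (w v u : ℝ)) / 21 := by
      rw [Finset.sum_div, Finset.sum_filter]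
      apply Finset.sum_congr rfl
      intro v _
      by_cases h : w v u = 0
      · simp [A, h]
      · simp [A, h]
    rw [h1, le_div_iff₀ (by norm_num)]
    have : ((21 : ℕ) : ℝ) ≤ ((∑ v, w v u : ℕ) : ℝ) := by exact_mod_cast in_ge u
    push_cast at this
    linarith
  · rintro v l ⟨-, hn, hc⟩
    rw [List.nodup_cons] at hn
    have hlen : l.length < 14 := by
      have h1 : (v :: l).Nodup := List.nodup_cons.2 hn
      have h2 := List.Nodup.length_le_card h1
      simp only [List.length_cons, Fintype.card_fin] at h2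
      omega
    have := sound v l 14 v (1 <<< v.val) 0 hlen hn.2 (by
      intro x hx
      rw [Nat.one_shiftLeft, Nat.testBit_two_pow]
      simp only [decide_eq_false_iff_not]
      intro hxv
      exact hn.1 (by rw [Fin.ext hxv]; exact hx)) hc (chk_all v)
    push_cast at this
    linarith

end Pool.Agent.Results.MP_0959cd_co.Counterexample
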